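import Pool.Agent.W998.KG.Stm

/-!
# PartPAR: an odd set of fixed points of an involution (helper29)
-/

set_option autoImplicit false

namespace Pool.Agent.W29.KG

open Pool.Agent.W998.KG Pool.Agent.Results.MP_633d19_co.SmallDegree
open Pool.Agent.Results.MP_633d19_co.SmallDegree.MGraph

theorem main : PartPAR := by
  intro V _ s t hs ht L hL hfix
  by_contra hcon
  push Not at hcon
  choose g hg1 hg2 hg3 using hcon
  have hinv : ∀ x (hx : x ∈ L), g (g x hx) (hg1 x hx) = x := by
    intro x hx
    obtain ⟨n, hn⟩ := hg2 x hx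
    obtain ⟨m, hm⟩ := hg2 (g x hx) (hg1 x hx)
    have hx' : x = ((s * t) ^ (-n)) (g x hx) := by
      rw [zpow_neg, eq_comm, Equiv.Perm.inv_eq_iff_eq]
      exact hn
    rcases three_fixed s t hs ht (g x hx) x (g (g x hx) (hg1 x hx)) (hfix _ (hg1 x hx)) (-n) m hx' hm
      (Or.inl (hfix x hx)) (Or.inl (hfix _ (hg1 _ _))) with h | h | h
    · exact absurd h (hg3 x hx)
    · exact absurd h.symm (hg3 _ (hg1 x hx))
    · exact h.symm
  have hsum : ∑ _x ∈ L, (1 : ZMod 2) = 0 := by
    refine Finset.sum_involution (fun x hx => g x hx) ?_ ?_ (fun x hx => hg1 x hx) hinv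
    · intro a ha
      decide
    · intro a ha _
      exact hg3 a ha
  rw [Finset.sum_const, nsmul_eq_mul, mul_one, ZMod.natCast_eq_zero_iff] at hsum
  omega

end Pool.Agent.W29.KG
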